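import Pool.Agent.Lib.MP_e029a2_pr.Fin2
import Pool.Agent.Lib.MP_e029a2_pr.LF3
import Pool.Agent.Lib.MP_e029a2_pr.D1
import Pool.Agent.Lib.MP_e029a2_pr.D2
import Pool.Agent.Lib.MP_e029a2_pr.TH7
import Pool.Agent.Lib.MP_e029a2_pr.LThr
import Pool.Agent.Lib.MP_e029a2_pr.Thr
import Pool.Agent.Lib.MP_e029a2_pr.MB4
import Pool.Agent.Lib.MP_e029a2_pr.MC5
import Pool.Agent.Lib.MP_e029a2_pr.MU4

/-!
# The critical curves of the frog model with drift have a continuous strictly decreasing limit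

`FrogModel.frogLaw d w α` is the law of all the steps of all the frogs of `FM(d, π_{w,α})` (file `LFDef`);
`FrogModel.originVisited ω t` says that an active frog is at the origin at time `t`.
`FDr.Lam w α` (file `Law`) is the constant of the one-dimensional process with killing: the infimum over
`s > 0` of the mean of the sum of `s ^ (place of death)` over all the frogs which are ever active, if one
active frog starts at `0`, one sleeping frog is at every site of `ℤ` (so also at `0`), and an active frog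
steps by `+1` with probability `w (1 + α) / 2`, by `-1` with probability `w (1 - α) / 2` and is killed with
probability `1 - w`.

There is one strictly decreasing continuous function `f` from `(0,1)` onto `(1/2,1)`, the place where
`Lam w α` crosses `1`, such that above `f` the model is transient in every dimension `d ≥ 2`, and on every
compact set of parameters below `f` it is recurrent in all large dimensions.  So every sequence of critical
curves as in the problem converges to `f`, locally uniformly.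
-/

set_option autoImplicit false

open MeasureTheory FrogModel

namespace Pool.Agent.Results.MP_e029a2_pr.DecreasingLimitCurve

/-- **The limit curve.** -/
theorem result : ∃ f : Set.Ioo (0 : ℝ) 1 → ℝ,
    StrictAnti f ∧ Continuous f ∧ Set.range f = Set.Ioo (1 / 2 : ℝ) 1 ∧
    (∀ α α' : Set.Ioo (0 : ℝ) 1, α < α' →
      f α' ≤ f α - (1 - f α) ^ 2 * (1 + f α) * ((α' : ℝ) - (α : ℝ)) / 8) ∧
    (∀ α : Set.Ioo (0 : ℝ) 1, 1 / (2 - Real.sqrt (1 - (α : ℝ) ^ 2)) ≤ f α ∧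
      f α * (2 - 2 * Real.sqrt (1 - (α : ℝ) ^ 2)) ≤ 1) ∧
    (∀ w α : Set.Ioo (0 : ℝ) 1, ((w : ℝ) < f α → 1 < FDr.Lam w α) ∧ (f α < (w : ℝ) → FDr.Lam w α < 1)) ∧
    (∀ d : ℕ, 2 ≤ d → ∀ w α : Set.Ioo (0 : ℝ) 1, IsProbabilityMeasure (frogLaw d w α) ∧
      (f α < (w : ℝ) → ∀ᵐ ω ∂(frogLaw d w α), {t | originVisited ω t}.Finite)) ∧
    (∀ K : Set (Set.Ioo (0 : ℝ) 1 × Set.Ioo (0 : ℝ) 1), IsCompact K → (∀ p ∈ K, (p.1 : ℝ) < f p.2) →
      ∃ d0 : ℕ, ∀ d : ℕ, d0 ≤ d → 2 ≤ d → ∀ p ∈ K, ∀ᵐ ω ∂(frogLaw d p.1 p.2), {t | originVisited ω t}.Infinite) ∧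
    ∀ g : ℕ → Set.Ioo (0 : ℝ) 1 → ℝ, (∀ d : ℕ, 2 ≤ d → ∀ w α : Set.Ioo (0 : ℝ) 1,
        ((w : ℝ) < g d α → ∀ᵐ ω ∂(frogLaw d w α), {t | originVisited ω t}.Infinite) ∧
        (g d α < (w : ℝ) → ¬∀ᵐ ω ∂(frogLaw d w α), {t | originVisited ω t}.Infinite)) →
      TendstoLocallyUniformly g f Filter.atTop := by
  have hth : ∀ α : Set.Ioo (0 : ℝ) 1, ∃ f : ℝ, 1 / (2 - Real.sqrt (1 - (α : ℝ) ^ 2)) ≤ f ∧ f ≤ 1 ∧
      f * (2 - 2 * Real.sqrt (1 - (α : ℝ) ^ 2)) ≤ 1 ∧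
      ∀ w : Set.Ioo (0 : ℝ) 1, ((w : ℝ) < f → 1 < FDr.Lam w α) ∧ (f < (w : ℝ) → FDr.Lam w α < 1) := by
    intro α
    have hs0 : 0 ≤ Real.sqrt (1 - (α : ℝ) ^ 2) := Real.sqrt_nonneg _
    have hs1 : Real.sqrt (1 - (α : ℝ) ^ 2) ≤ 1 := by
      rw [Real.sqrt_le_one]
      nlinarith [α.2.1]
    have hden : 0 < 2 - Real.sqrt (1 - (α : ℝ) ^ 2) := by linarith
    refine FDr.exists_threshold (fun w => FDr.Lam w α) (fun w' w h hl => FDr.Lam_lt_of_lt w' w α h hl) _ _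
      (by positivity) (by rw [div_le_one hden]; linarith) (fun w hw => FDr.one_lt_Lam w α ?_)
      (fun w hw => FDr.Lam_lt_one w α ?_)
    · rw [lt_div_iff₀ hden] at hw
      exact hw
    · linarith
  choose f hf1 hf2 hf3 hf4 using hth
  have hhalf : ∀ α : Set.Ioo (0 : ℝ) 1, 1 / 2 < 1 / (2 - Real.sqrt (1 - (α : ℝ) ^ 2)) := by
    intro α
    have hs0 : 0 < Real.sqrt (1 - (α : ℝ) ^ 2) := Real.sqrt_pos.2 (by nlinarith [α.2.1, α.2.2])
    have hs1 : Real.sqrt (1 - (α : ℝ) ^ 2) ≤ 1 := by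
      rw [Real.sqrt_le_one]
      nlinarith [α.2.1]
    exact one_div_lt_one_div_of_lt (by linarith) (by linarith)
  have hhalf' : ∀ α, 1 / 2 < f α := fun α => (hhalf α).trans_le (hf1 α)
  obtain ⟨h1, h2, h3⟩ := FDr.threshold_strict (f := f) (fun α => (hhalf' α).le) hf2
    (fun w α => hf4 α w) FDr.exists_Lam_lt_one
  have hc : Continuous f :=
    FDr.MC.continuous_threshold (fun α => by linarith [hhalf' α]) h1 (fun w α => hf4 α w)
  have hprob : ∀ d : ℕ, 2 ≤ d → ∀ w α : Set.Ioo (0 : ℝ) 1, IsProbabilityMeasure (frogLaw d w α) := by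
    intro d hd w α
    obtain ⟨D, rfl⟩ : ∃ D, d = D + 1 := ⟨d - 1, by omega⟩
    exact frogLaw_prob D (by omega) w α
  have htra : ∀ d : ℕ, 2 ≤ d → ∀ w α : Set.Ioo (0 : ℝ) 1, f α < (w : ℝ) →
      ∀ᵐ ω ∂(frogLaw d w α), {t | originVisited ω t}.Finite := by
    intro d hd w α h
    obtain ⟨D, rfl⟩ : ∃ D, d = D + 1 := ⟨d - 1, by omega⟩
    have : NeZero D := ⟨by omega⟩
    exact prob_finite D w α (FDr.transient w α ((hf4 α w).2 h) D _ _ (isFrog D (by omega) w α))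
  have hrec : ∀ K : Set (Set.Ioo (0 : ℝ) 1 × Set.Ioo (0 : ℝ) 1), IsCompact K → (∀ p ∈ K, (p.1 : ℝ) < f p.2) →
      ∃ d0 : ℕ, ∀ d : ℕ, d0 ≤ d → 2 ≤ d → ∀ p ∈ K, ∀ᵐ ω ∂(frogLaw d p.1 p.2), {t | originVisited ω t}.Infinite := by
    intro K hK h
    obtain ⟨D0, hD0⟩ := FDr.recurrent_compact hK fun p hp => (hf4 p.2 p.1).1 (h p hp)
    refine ⟨D0 + 1, fun d h1 h2 p hp => ?_⟩
    obtain ⟨D, rfl⟩ : ∃ D, d = D + 1 := ⟨d - 1, by omega⟩
    have : NeZero D := ⟨by omega⟩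
    exact prob_infinite D p.1 p.2 (hD0 D (by omega) p hp _ _ (isFrog D (by omega) p.1 p.2))
  refine ⟨f, h2, hc, FDr.MC.range_threshold hc h1 hf1 hf3, h3, fun α => ⟨hf1 α, hf3 α⟩, fun w α => hf4 α w,
    fun d hd w α => ⟨hprob d hd w α, htra d hd w α⟩, hrec, fun g hg => ?_⟩
  rw [Metric.tendstoLocallyUniformly_iff]
  intro ε hε x
  have : LocallyCompactSpace (Set.Ioo (0 : ℝ) 1) := (isOpen_Ioo.isOpenEmbedding_subtypeVal).locallyCompactSpace
  obtain ⟨T, hT, hTx⟩ := exists_compact_mem_nhds x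
  obtain ⟨W, hW⟩ : ∃ W : Set.Ioo (0 : ℝ) 1 → Set.Ioo (0 : ℝ) 1, ∀ α, (W α : ℝ) = max (f α - ε / 2) (1 / 4) :=
    ⟨fun α => ⟨max (f α - ε / 2) (1 / 4), lt_max_of_lt_right (by norm_num),
      max_lt (by linarith [h1 α]) (by norm_num)⟩, fun α => rfl⟩
  have hWc : Continuous W := by
    rw [continuous_induced_rng]
    have h4 : Subtype.val ∘ W = fun α => max (f α - ε / 2) (1 / 4) := funext hW
    rw [h4]
    exact (hc.sub continuous_const).max continuous_const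
  have hWf : ∀ α, (W α : ℝ) < f α := fun α => by
    rw [hW]
    exact max_lt (by linarith) (by linarith [hhalf' α])
  obtain ⟨d0, hd0⟩ := hrec ((fun α => (W α, α)) '' T) (hT.image (hWc.prodMk continuous_id)) (by
    rintro _ ⟨α, _, rfl⟩
    exact hWf α)
  refine ⟨T, hTx, ?_⟩
  filter_upwards [Filter.eventually_ge_atTop (max d0 2)] with d hd α hα
  have hda : d0 ≤ d := (le_max_left _ _).trans hd
  have hdb : 2 ≤ d := (le_max_right _ _).trans hd
  have hlow : (W α : ℝ) ≤ g d α := by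
    by_contra hcon
    exact (hg d hdb (W α) α).2 (not_le.1 hcon) (hd0 d hda hdb (W α, α) ⟨α, hα, rfl⟩)
  have hupp : g d α ≤ f α := by
    by_contra hcon
    obtain ⟨y, hy1, hy2⟩ := exists_between (lt_min (not_le.1 hcon) (h1 α))
    obtain ⟨Y, hY⟩ : ∃ Y : Set.Ioo (0 : ℝ) 1, (Y : ℝ) = y :=
      ⟨⟨y, by linarith [hhalf' α], hy2.trans_le (min_le_right _ _)⟩, rfl⟩
    have h5 := (hg d hdb Y α).1 (by rw [hY]; exact hy2.trans_le (min_le_left _ _))
    have h6 := htra d hdb Y α (by rw [hY]; exact hy1)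
    have := hprob d hdb Y α
    obtain ⟨ω, h7, h8⟩ := (h5.and h6).exists
    exact h7 h8
  have h9 : f α - ε / 2 ≤ W α := by
    rw [hW]
    exact le_max_left _ _
  rw [Real.dist_eq, abs_of_nonneg (by linarith)]
  linarith

end Pool.Agent.Results.MP_e029a2_pr.DecreasingLimitCurve
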