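import Pool.Agent.Lib.MP_e029a2_pr.LF3
import Pool.Agent.Lib.MP_e029a2_pr.Fin2
import Pool.Agent.Lib.MP_e029a2_pr.CO.TFin
import Pool.Agent.Lib.MP_e029a2_pr.CO.ExPar2
import Pool.Agent.Lib.MP_e029a2_pr.CO.Fvd
import Pool.Agent.Lib.MP_e029a2_pr.BX.Strip
import Pool.Agent.Lib.MP_e029a2_pr.BX.Rec

/-!
# The phase diagram of the frog model with a small drift, in every dimension

`FrogModel.frogLaw d w α` is the law of all the steps of all the frogs of `FM(d, π_{w,α})` (file `LFDef`);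
`FrogModel.originVisited ω t` says that an active frog is at the origin at time `t`.

In every fixed dimension `d ≥ 2` and for all small `α` the model is transient for every `w` above the curve
`w = 1 - exp (-c/α)` if `c > π²/6`, and recurrent for every `w ∈ (0, 1)` below it if `c < π²/6`.  So every critical curve
`f_d` as in the problem satisfies `α log (1/(1 - f_d(α))) → π²/6` as `α → 0`, in every dimension.
-/

set_option autoImplicit false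

open MeasureTheory FrogModel Filter
open scoped Topology

namespace Pool.Agent.Results.MP_e029a2_pr.SmallDriftStrip

/-- **The strip theorem.** -/
theorem result :
    (∀ d : ℕ, 2 ≤ d → ∀ w α : Set.Ioo (0 : ℝ) 1, IsProbabilityMeasure (frogLaw d w α)) ∧
    (∀ c : ℝ, Real.pi ^ 2 / 6 < c → ∃ a : ℝ, 0 < a ∧ ∀ d : ℕ, 2 ≤ d → ∀ w α : Set.Ioo (0 : ℝ) 1, (α : ℝ) < a →
      1 - Real.exp (-(c / α)) ≤ (w : ℝ) → ∀ᵐ ω ∂(frogLaw d w α), {t | originVisited ω t}.Finite) ∧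
    (∀ d : ℕ, 2 ≤ d → ∀ c : ℝ, c < Real.pi ^ 2 / 6 → ∃ a : ℝ, 0 < a ∧ ∀ w α : Set.Ioo (0 : ℝ) 1, (α : ℝ) < a →
      (w : ℝ) ≤ 1 - Real.exp (-(c / α)) → ∀ᵐ ω ∂(frogLaw d w α), {t | originVisited ω t}.Infinite) ∧
    ∀ d : ℕ, 2 ≤ d → ∀ f : ℝ → ℝ, (∀ w α : Set.Ioo (0 : ℝ) 1,
        ((w : ℝ) < f α → ∀ᵐ ω ∂(frogLaw d w α), {t | originVisited ω t}.Infinite) ∧
        (f α < (w : ℝ) → ¬∀ᵐ ω ∂(frogLaw d w α), {t | originVisited ω t}.Infinite)) →
      Tendsto (fun α : ℝ => α * Real.log (1 / (1 - f α))) (𝓝[>] 0) (𝓝 (Real.pi ^ 2 / 6)) := by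
  have hA : ∀ d : ℕ, 2 ≤ d → ∀ w α : Set.Ioo (0 : ℝ) 1, IsProbabilityMeasure (frogLaw d w α) := by
    intro d hd w α
    obtain ⟨D, rfl⟩ : ∃ D, d = D + 1 := ⟨d - 1, by omega⟩
    exact frogLaw_prob D (by omega) w α
  have hB : ∀ c : ℝ, Real.pi ^ 2 / 6 < c → ∃ a : ℝ, 0 < a ∧ ∀ d : ℕ, 2 ≤ d → ∀ w α : Set.Ioo (0 : ℝ) 1, (α : ℝ) < a →
      1 - Real.exp (-(c / α)) ≤ (w : ℝ) → ∀ᵐ ω ∂(frogLaw d w α), {t | originVisited ω t}.Finite := by
    intro c hc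
    obtain ⟨a, ha, h⟩ := FDr.CO.lam_corner c hc
    refine ⟨a, ha, fun d hd w α h1 h2 => ?_⟩
    obtain ⟨D, rfl⟩ : ∃ D, d = D + 1 := ⟨d - 1, by omega⟩
    have : NeZero D := ⟨by omega⟩
    exact prob_finite D w α (FDr.transient w α (h w α h1 h2) D _ _ (isFrog D (by omega) w α))
  have hC : ∀ d : ℕ, 2 ≤ d → ∀ c : ℝ, c < Real.pi ^ 2 / 6 → ∃ a : ℝ, 0 < a ∧ ∀ w α : Set.Ioo (0 : ℝ) 1, (α : ℝ) < a →
      (w : ℝ) ≤ 1 - Real.exp (-(c / α)) → ∀ᵐ ω ∂(frogLaw d w α), {t | originVisited ω t}.Infinite := by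
    intro d hd c hc
    obtain ⟨D, rfl⟩ : ∃ D, d = D + 1 := ⟨d - 1, by omega⟩
    have : NeZero D := ⟨by omega⟩
    -- near the corner `(1, 0)`
    obtain ⟨a, ha, h⟩ := FDr.CO.exists_fv2 c hc D
    -- away from `w = 1`
    obtain ⟨b, hb, hB⟩ := FDr.BX.exists_fv (min a 1) (lt_min ha one_pos) (min_le_right _ _) D
    refine ⟨min a b, lt_min ha hb, fun w α h1 h3 => ?_⟩
    rcases lt_or_ge (1 - a) (w : ℝ) with h2 | h2
    · obtain ⟨p, hp⟩ := h w α (h1.trans_le (min_le_left _ _)) h2 h3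
      exact prob_infinite D w α (FDr.CO.fvc_recurrent w α D p hp _ _ (isFrog D (by omega) w α))
    · obtain ⟨p, hp⟩ := hB w α (h1.trans_le (min_le_right _ _)) (by linarith [min_le_left a 1])
      exact prob_infinite D w α (FDr.BX.fvc_recurrent w α D p hp _ _ (isFrog D (by omega) w α))
  refine ⟨hA, hB, hC, fun d hd f hf => ?_⟩
  have hpi : (1 : ℝ) < Real.pi ^ 2 / 6 := by nlinarith [Real.pi_gt_three]
  have hexp : ∀ c : ℝ, 0 < c → ∀ α : ℝ, 0 < α → 1 - Real.exp (-(c / α)) ∈ Set.Ioo (0 : ℝ) 1 := by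
    intro c hc α hα
    have h1 : Real.exp (-(c / α)) < 1 := Real.exp_lt_one_iff.2 (neg_lt_zero.2 (div_pos hc hα))
    exact ⟨by linarith, by linarith [Real.exp_pos (-(c / α))]⟩
  -- the lower bound
  have hlow : ∀ c : ℝ, 0 < c → c < Real.pi ^ 2 / 6 → ∀ᶠ α : ℝ in 𝓝[>] 0, 0 < α ∧ 1 - Real.exp (-(c / α)) ≤ f α := by
    intro c hc0 hc
    obtain ⟨a, ha, h⟩ := hC d hd c hc
    have e2 : ∀ᶠ α : ℝ in 𝓝[>] 0, α ∈ Set.Ioo (0 : ℝ) (min a 1) :=
      Ioo_mem_nhdsGT (lt_min ha one_pos)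
    filter_upwards [e2] with α h2
    refine ⟨h2.1, ?_⟩
    by_contra hn
    rw [not_le] at hn
    have h3 := h ⟨_, hexp c hc0 α h2.1⟩ ⟨α, h2.1, h2.2.trans_le (min_le_right _ _)⟩ (h2.2.trans_le (min_le_left _ _))
      le_rfl
    exact (hf ⟨_, hexp c hc0 α h2.1⟩ ⟨α, h2.1, h2.2.trans_le (min_le_right _ _)⟩).2 hn h3
  -- the upper bound
  have hupp : ∀ c : ℝ, Real.pi ^ 2 / 6 < c → ∀ᶠ α : ℝ in 𝓝[>] 0, 0 < α ∧ f α ≤ 1 - Real.exp (-(c / α)) := by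
    intro c hc
    obtain ⟨a, ha, h⟩ := hB c hc
    have e2 : ∀ᶠ α : ℝ in 𝓝[>] 0, α ∈ Set.Ioo (0 : ℝ) (min a 1) :=
      Ioo_mem_nhdsGT (lt_min ha one_pos)
    filter_upwards [e2] with α h2
    refine ⟨h2.1, ?_⟩
    by_contra hn
    rw [not_le] at hn
    have hw := hexp c (by linarith) α h2.1
    have h3 := h d hd ⟨_, hw⟩ ⟨α, h2.1, h2.2.trans_le (min_le_right _ _)⟩ (h2.2.trans_le (min_le_left _ _)) le_rfl
    have h4 := (hf ⟨_, hw⟩ ⟨α, h2.1, h2.2.trans_le (min_le_right _ _)⟩).1 hn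
    have := hA d hd ⟨_, hw⟩ ⟨α, h2.1, h2.2.trans_le (min_le_right _ _)⟩
    obtain ⟨ω, h5, h6⟩ := (h3.and h4).exists
    exact h6 h5
  have hl : ∀ c : ℝ, 0 < c → c < Real.pi ^ 2 / 6 → ∀ᶠ α : ℝ in 𝓝[>] 0, c ≤ α * Real.log (1 / (1 - f α)) := by
    intro c hc0 hc
    filter_upwards [hlow c hc0 hc, hupp (Real.pi ^ 2 / 6 + 1) (by linarith)] with α h1 h2
    have h3 : 0 < 1 - f α := by
      have := Real.exp_pos (-((Real.pi ^ 2 / 6 + 1) / α))
      linarith [h2.2]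
    have h4 : 1 - f α ≤ Real.exp (-(c / α)) := by linarith [h1.2]
    have h5 : Real.log (1 - f α) ≤ -(c / α) := by
      have h6 := Real.log_le_log h3 h4
      rwa [Real.log_exp] at h6
    rw [one_div, Real.log_inv]
    have h7 : c / α ≤ -Real.log (1 - f α) := by linarith
    have h8 := mul_le_mul_of_nonneg_left h7 h1.1.le
    rwa [mul_div_cancel₀ _ h1.1.ne'] at h8
  have hu : ∀ c : ℝ, Real.pi ^ 2 / 6 < c → ∀ᶠ α : ℝ in 𝓝[>] 0, α * Real.log (1 / (1 - f α)) ≤ c := by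
    intro c hc
    filter_upwards [hupp c hc] with α h1
    have h4 : Real.exp (-(c / α)) ≤ 1 - f α := by linarith [h1.2]
    have h5 : -(c / α) ≤ Real.log (1 - f α) := by
      have h6 := Real.log_le_log (Real.exp_pos _) h4
      rwa [Real.log_exp] at h6
    rw [one_div, Real.log_inv]
    have h7 : -Real.log (1 - f α) ≤ c / α := by linarith
    have h8 := mul_le_mul_of_nonneg_left h7 h1.1.le
    rwa [mul_div_cancel₀ _ h1.1.ne'] at h8
  rw [tendsto_order]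
  refine ⟨fun a ha => ?_, fun b hb => ?_⟩
  · obtain ⟨c, hc1, hc2⟩ := exists_between (max_lt ha hpi)
    filter_upwards [hl c (by linarith [le_max_right a 1]) hc2] with α h
    linarith [le_max_left a 1]
  · obtain ⟨c, hc1, hc2⟩ := exists_between hb
    filter_upwards [hu c hc1] with α h
    linarith

end Pool.Agent.Results.MP_e029a2_pr.SmallDriftStrip
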