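import Pool.Agent.Lib.MP_e029a2_pr.LF3
import Pool.Agent.Lib.MP_e029a2_pr.CB.RSide
import Pool.Agent.Lib.MP_e029a2_pr.CB.TSide

/-!
# The phase diagram of the planar frog model with strong drift

`FrogModel.frogLaw d w α` is the law of all the steps of all the frogs of `FM(d, π_{w,α})` (file `LFDef`);
`FrogModel.originVisited ω t` says that an active frog is at the origin at time `t`.

In dimension `d = 2`, for `α` close to `1`, the model is transient above the curve `w = γ / log² (1 - α)` if `γ > π⁴/72`,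
and recurrent below it if `γ < π⁴/72`.  So every critical curve `f_2` as in the problem
satisfies `f_2(α) log² (1 - α) → π⁴/72` as `α → 1`.
-/

set_option autoImplicit false

open MeasureTheory FrogModel Filter
open scoped Topology

namespace Pool.Agent.Results.MP_e029a2_pr.StrongDriftCorner

/-- **The theorem of strong drift.** -/
theorem result :
    (∀ w α : Set.Ioo (0 : ℝ) 1, IsProbabilityMeasure (frogLaw 2 w α)) ∧
    (∀ γ : ℝ, Real.pi ^ 4 / 72 < γ → ∃ a : ℝ, a < 1 ∧ ∀ w α : Set.Ioo (0 : ℝ) 1, a < (α : ℝ) →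
      γ / Real.log (1 - α) ^ 2 ≤ (w : ℝ) → ∀ᵐ ω ∂(frogLaw 2 w α), {t | originVisited ω t}.Finite) ∧
    (∀ γ : ℝ, 0 < γ → γ < Real.pi ^ 4 / 72 → ∃ a : ℝ, a < 1 ∧ ∀ w α : Set.Ioo (0 : ℝ) 1, a < (α : ℝ) →
      (w : ℝ) ≤ γ / Real.log (1 - α) ^ 2 → ∀ᵐ ω ∂(frogLaw 2 w α), {t | originVisited ω t}.Infinite) ∧
    ∀ f : ℝ → ℝ, (∀ w α : Set.Ioo (0 : ℝ) 1,
        ((w : ℝ) < f α → ∀ᵐ ω ∂(frogLaw 2 w α), {t | originVisited ω t}.Infinite) ∧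
        (f α < (w : ℝ) → ¬∀ᵐ ω ∂(frogLaw 2 w α), {t | originVisited ω t}.Infinite)) →
      Tendsto (fun α : ℝ => f α * Real.log (1 - α) ^ 2) (𝓝[<] 1) (𝓝 (Real.pi ^ 4 / 72)) := by
  have hA : ∀ w α : Set.Ioo (0 : ℝ) 1, IsProbabilityMeasure (frogLaw 2 w α) := fun w α => frogLaw_prob 1 le_rfl w α
  have hB : ∀ γ : ℝ, Real.pi ^ 4 / 72 < γ → ∃ a : ℝ, a < 1 ∧ ∀ w α : Set.Ioo (0 : ℝ) 1, a < (α : ℝ) →
      γ / Real.log (1 - α) ^ 2 ≤ (w : ℝ) → ∀ᵐ ω ∂(frogLaw 2 w α), {t | originVisited ω t}.Finite := by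
    intro γ hγ
    obtain ⟨a, -, ha, h⟩ := FDr.CB.transient_b γ hγ
    exact ⟨a, ha, fun w α h1 h2 => prob_finite 1 w α (h w α h1 h2 _ _ (isFrog 1 le_rfl w α))⟩
  have hC : ∀ γ : ℝ, 0 < γ → γ < Real.pi ^ 4 / 72 → ∃ a : ℝ, a < 1 ∧ ∀ w α : Set.Ioo (0 : ℝ) 1, a < (α : ℝ) →
      (w : ℝ) ≤ γ / Real.log (1 - α) ^ 2 → ∀ᵐ ω ∂(frogLaw 2 w α), {t | originVisited ω t}.Infinite := by
    intro γ hγ0 hγ
    obtain ⟨a, -, ha, h⟩ := FDr.CB.recurrent_b γ hγ0 hγ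
    exact ⟨a, ha, fun w α h1 h2 => prob_infinite 1 w α (h w α h1 h2 _ _ (isFrog 1 le_rfl w α))⟩
  refine ⟨hA, hB, hC, fun f hf => ?_⟩
  have hpi : (0 : ℝ) < Real.pi ^ 4 / 72 := by positivity
  -- `log² (1 - α)` is large
  have hlog : Tendsto (fun α : ℝ => Real.log (1 - α) ^ 2) (𝓝[<] 1) atTop := by
    have h1 : Tendsto (fun α : ℝ => 1 - α) (𝓝[<] 1) (𝓝[>] 0) := by
      refine tendsto_nhdsWithin_iff.2 ⟨?_, ?_⟩
      · have h2 : Tendsto (fun α : ℝ => 1 - α) (𝓝 1) (𝓝 (1 - 1)) := (continuous_const.sub continuous_id).tendsto 1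
        rw [sub_self] at h2
        exact h2.mono_left nhdsWithin_le_nhds
      · filter_upwards [self_mem_nhdsWithin] with α hα
        have : α < 1 := hα
        show 0 < 1 - α
        linarith
    have h2 := Real.tendsto_log_nhdsGT_zero.comp h1
    have h3 : Tendsto (fun α : ℝ => (-Real.log (1 - α)) ^ 2) (𝓝[<] 1) atTop :=
      (tendsto_pow_atTop two_ne_zero).comp (tendsto_neg_atBot_atTop.comp h2)
    exact h3.congr fun α => neg_sq _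
  have hw : ∀ γ : ℝ, 0 < γ → ∀ᶠ α : ℝ in 𝓝[<] 1, 0 < Real.log (1 - α) ^ 2 ∧ γ / Real.log (1 - α) ^ 2 ∈ Set.Ioo (0 : ℝ) 1 := by
    intro γ hγ
    filter_upwards [hlog.eventually_gt_atTop (max γ 0)] with α h1
    have h2 := lt_of_le_of_lt (le_max_left γ 0) h1
    have h3 := lt_of_le_of_lt (le_max_right γ 0) h1
    exact ⟨h3, div_pos hγ h3, (div_lt_one h3).2 h2⟩
  -- the lower bound
  have hlow : ∀ γ : ℝ, 0 < γ → γ < Real.pi ^ 4 / 72 → ∀ᶠ α : ℝ in 𝓝[<] 1, γ ≤ f α * Real.log (1 - α) ^ 2 := by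
    intro γ hγ0 hγ
    obtain ⟨a, ha, h⟩ := hC γ hγ0 hγ
    have e2 : ∀ᶠ α : ℝ in 𝓝[<] 1, α ∈ Set.Ioo (max a 0) 1 := Ioo_mem_nhdsLT (max_lt ha one_pos)
    filter_upwards [hw γ hγ0, e2] with α h1 h2
    have hα : α ∈ Set.Ioo (0 : ℝ) 1 := ⟨(le_max_right a 0).trans_lt h2.1, h2.2⟩
    rw [← div_le_iff₀ h1.1]
    by_contra hn
    rw [not_le] at hn
    have h3 := h ⟨_, h1.2⟩ ⟨α, hα⟩ ((le_max_left a 0).trans_lt h2.1) le_rfl
    exact (hf ⟨_, h1.2⟩ ⟨α, hα⟩).2 hn h3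
  -- the upper bound
  have hupp : ∀ γ : ℝ, Real.pi ^ 4 / 72 < γ → ∀ᶠ α : ℝ in 𝓝[<] 1, f α * Real.log (1 - α) ^ 2 ≤ γ := by
    intro γ hγ
    obtain ⟨a, ha, h⟩ := hB γ hγ
    have e2 : ∀ᶠ α : ℝ in 𝓝[<] 1, α ∈ Set.Ioo (max a 0) 1 := Ioo_mem_nhdsLT (max_lt ha one_pos)
    filter_upwards [hw γ (hpi.trans hγ), e2] with α h1 h2
    have hα : α ∈ Set.Ioo (0 : ℝ) 1 := ⟨(le_max_right a 0).trans_lt h2.1, h2.2⟩
    rw [← le_div_iff₀ h1.1]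
    by_contra hn
    rw [not_le] at hn
    have h3 := h ⟨_, h1.2⟩ ⟨α, hα⟩ ((le_max_left a 0).trans_lt h2.1) le_rfl
    have h4 := (hf ⟨_, h1.2⟩ ⟨α, hα⟩).1 hn
    have := hA ⟨_, h1.2⟩ ⟨α, hα⟩
    obtain ⟨ω, h5, h6⟩ := (h3.and h4).exists
    exact h6 h5
  rw [tendsto_order]
  refine ⟨fun b hb => ?_, fun b hb => ?_⟩
  · obtain ⟨c, hc1, hc2⟩ := exists_between (max_lt hb hpi)
    filter_upwards [hlow c ((le_max_right b 0).trans_lt hc1) hc2] with α h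
    exact ((le_max_left b 0).trans_lt hc1).trans_le h
  · obtain ⟨c, hc1, hc2⟩ := exists_between hb
    filter_upwards [hupp c hc1] with α h
    exact h.trans_lt hc2

end Pool.Agent.Results.MP_e029a2_pr.StrongDriftCorner
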