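import Pool.Agent.Lib.MP_e029a2_pr.LF3
import Pool.Agent.Lib.MP_e029a2_pr.HC.Lit
import Pool.Agent.Lib.MP_e029a2_pr.HC.RFin
import Pool.Agent.Lib.MP_e029a2_pr.HC.NZ4
import Pool.Agent.Lib.MP_e029a2_pr.HC.NZ3

/-!
# The frog model with drift in dimension `d ≥ 3`: an explicit lower barrier, and the limit of strong drift

`FrogModel.frogLaw d w α` is the law of all the steps of all the frogs of `FM(d, π_{w,α})` (file `LFDef`);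
`FrogModel.originVisited ω t` says that an active frog is at the origin at time `t`.
`FrogModel.wCrit m` is the critical death probability of the frog model on `Z^m` without drift (file `LFDeath`).

For `w < barrier (wCrit (d - 1)) α` the model is recurrent.  This barrier is explicit and strictly decreasing in `α`, and
its value at `α = 1` is `wCrit (d - 1)`.  For `w ≥ wCrit (d - 1) + ε` and `α` close to `1` the model is transient.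
-/

set_option autoImplicit false

open MeasureTheory FrogModel Filter
open scoped Topology

namespace Pool.Agent.Results.MP_e029a2_pr.StrongDriftLimit

/-- The explicit lower barrier. -/
noncomputable def barrier (θ α : ℝ) : ℝ :=
  (1 - (1 - θ) * √(α ^ 2 + (1 - θ) ^ 2 * (1 - α ^ 2))) / (1 + (1 - θ) ^ 2 * (1 - α ^ 2))

/-- `f` is a critical curve, as in the problem, for the parameters in `(0, 1)`. -/
def CritCurve (d : ℕ) (f : ℝ → ℝ) : Prop :=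
  ∀ w α : Set.Ioo (0 : ℝ) 1, ((w : ℝ) < f α → ∀ᵐ ω ∂(frogLaw d w α), {t | originVisited ω t}.Infinite) ∧
    (f α < (w : ℝ) → ¬∀ᵐ ω ∂(frogLaw d w α), {t | originVisited ω t}.Infinite)

/-! ### The barrier -/

private theorem bar_aux {κ α : ℝ} (hκ0 : 0 < κ) (hα0 : 0 ≤ α) (hα1 : α ≤ 1) :
    0 ≤ 1 - α ^ 2 ∧ 1 - α ^ 2 ≤ 1 ∧ 1 ≤ 1 + κ ^ 2 * (1 - α ^ 2) ∧ 0 ≤ √(α ^ 2 + κ ^ 2 * (1 - α ^ 2)) ∧
      √(α ^ 2 + κ ^ 2 * (1 - α ^ 2)) ^ 2 = α ^ 2 + κ ^ 2 * (1 - α ^ 2) := by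
  have hα2 : 0 ≤ 1 - α ^ 2 := by
    have := pow_le_one₀ (n := 2) hα0 hα1
    linarith
  have h1 : 0 ≤ κ ^ 2 * (1 - α ^ 2) := by positivity
  refine ⟨hα2, by linarith [sq_nonneg α], by linarith, Real.sqrt_nonneg _, Real.sq_sqrt ?_⟩
  have := sq_nonneg α
  linarith

private theorem bar_lt {θ α w : ℝ} (hθ1 : θ < 1) (hα0 : 0 ≤ α) (hα1 : α ≤ 1) (hw : w < barrier θ α) :
    0 < (1 - w) ^ 2 - (1 - θ) ^ 2 * (1 - w ^ 2 * (1 - α ^ 2)) := by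
  obtain ⟨κ, hκ⟩ : ∃ κ, κ = 1 - θ := ⟨_, rfl⟩
  have hκ0 : 0 < κ := by linarith
  unfold barrier at hw
  rw [← hκ] at hw ⊢
  obtain ⟨hα2, -, hA1, hr0, hr2⟩ := bar_aux hκ0 hα0 hα1
  obtain ⟨A, hA⟩ : ∃ A, A = 1 + κ ^ 2 * (1 - α ^ 2) := ⟨_, rfl⟩
  obtain ⟨r, hr⟩ : ∃ r, r = √(α ^ 2 + κ ^ 2 * (1 - α ^ 2)) := ⟨_, rfl⟩
  rw [← hA] at hA1 hw
  rw [← hr] at hr0 hr2 hw
  have hA0 : 0 < A := by linarith
  have key : (1 - A * w) ^ 2 - (κ * r) ^ 2 = A * ((1 - w) ^ 2 - κ ^ 2 * (1 - w ^ 2 * (1 - α ^ 2))) := by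
    rw [mul_pow, hr2, hA]
    ring
  rw [lt_div_iff₀ hA0] at hw
  have h1 : κ * r < 1 - A * w := by linarith
  have h2 : (κ * r) ^ 2 < (1 - A * w) ^ 2 := pow_lt_pow_left₀ h1 (by positivity) two_ne_zero
  have h3 : 0 < A * ((1 - w) ^ 2 - κ ^ 2 * (1 - w ^ 2 * (1 - α ^ 2))) := by linarith
  exact (mul_pos_iff_of_pos_left hA0).1 h3

private theorem lt_bar {θ α w : ℝ} (hθ1 : θ < 1) (hα0 : 0 ≤ α) (hα1 : α ≤ 1) (hw1 : w ≤ 1)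
    (h : 0 < (1 - w) ^ 2 - (1 - θ) ^ 2 * (1 - w ^ 2 * (1 - α ^ 2))) : w < barrier θ α := by
  obtain ⟨κ, hκ⟩ : ∃ κ, κ = 1 - θ := ⟨_, rfl⟩
  have hκ0 : 0 < κ := by linarith
  unfold barrier
  rw [← hκ] at h ⊢
  obtain ⟨hα2, hα3, hA1, hr0, hr2⟩ := bar_aux hκ0 hα0 hα1
  obtain ⟨A, hA⟩ : ∃ A, A = 1 + κ ^ 2 * (1 - α ^ 2) := ⟨_, rfl⟩
  obtain ⟨r, hr⟩ : ∃ r, r = √(α ^ 2 + κ ^ 2 * (1 - α ^ 2)) := ⟨_, rfl⟩
  rw [← hA] at hA1 ⊢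
  rw [← hr] at hr0 hr2 ⊢
  have hA0 : 0 < A := by linarith
  have key : (1 - A * w) ^ 2 - (κ * r) ^ 2 = A * ((1 - w) ^ 2 - κ ^ 2 * (1 - w ^ 2 * (1 - α ^ 2))) := by
    rw [mul_pow, hr2, hA]
    ring
  rw [lt_div_iff₀ hA0]
  have h3 : (κ * r) ^ 2 < (1 - A * w) ^ 2 := by
    have := mul_pos hA0 h
    linarith
  have h4 : |κ * r| < |1 - A * w| := sq_lt_sq.1 h3
  rw [abs_of_nonneg (by positivity)] at h4
  rcases le_or_gt 0 (1 - A * w) with h5 | h5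
  · rw [abs_of_nonneg h5] at h4
    linarith
  · exfalso
    rw [abs_of_neg h5] at h4
    have h6 : A * w ≤ A := by
      have := mul_le_mul_of_nonneg_left hw1 hA0.le
      linarith
    have h7 : κ * (1 - α ^ 2) ≤ r := by
      refine le_of_sq_le_sq ?_ hr0
      rw [hr2, mul_pow]
      have h8 : (1 - α ^ 2) ^ 2 ≤ 1 - α ^ 2 := by nlinarith
      have h9 := mul_le_mul_of_nonneg_left h8 (sq_nonneg κ)
      have h10 := sq_nonneg α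
      linarith
    have h8 := mul_le_mul_of_nonneg_left h7 hκ0.le
    have h9 : κ * (κ * (1 - α ^ 2)) = A - 1 := by
      rw [hA]
      ring
    linarith

private theorem bar_zero {θ α : ℝ} (hθ0 : 0 < θ) (hθ1 : θ < 1) (hα0 : 0 ≤ α) (hα1 : α ≤ 1) :
    0 < barrier θ α ∧ barrier θ α ≤ 1 ∧
      (1 - barrier θ α) ^ 2 - (1 - θ) ^ 2 * (1 - barrier θ α ^ 2 * (1 - α ^ 2)) = 0 := by
  obtain ⟨κ, hκ⟩ : ∃ κ, κ = 1 - θ := ⟨_, rfl⟩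
  have hκ0 : 0 < κ := by linarith
  have hκ1 : κ < 1 := by linarith
  obtain ⟨b, hb⟩ : ∃ b, b = barrier θ α := ⟨_, rfl⟩
  rw [← hb]
  unfold barrier at hb
  rw [← hκ] at hb ⊢
  obtain ⟨hα2, hα3, hA1, hr0, hr2⟩ := bar_aux hκ0 hα0 hα1
  obtain ⟨A, hA⟩ : ∃ A, A = 1 + κ ^ 2 * (1 - α ^ 2) := ⟨_, rfl⟩
  obtain ⟨r, hr⟩ : ∃ r, r = √(α ^ 2 + κ ^ 2 * (1 - α ^ 2)) := ⟨_, rfl⟩
  rw [← hA] at hA1 hb
  rw [← hr] at hr0 hr2 hb
  have hA0 : 0 < A := by linarith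
  have hr1 : r ≤ 1 := by
    refine le_of_sq_le_sq ?_ zero_le_one
    rw [hr2]
    have h1 : κ ^ 2 ≤ 1 := pow_le_one₀ hκ0.le hκ1.le
    have h2 := mul_le_mul_of_nonneg_right h1 hα2
    linarith
  have h1 : 0 < 1 - κ * r := by
    have := mul_le_mul_of_nonneg_left hr1 hκ0.le
    linarith
  have h2 : A * b = 1 - κ * r := by
    rw [hb]
    field_simp
  have key : (1 - A * b) ^ 2 - (κ * r) ^ 2 = A * ((1 - b) ^ 2 - κ ^ 2 * (1 - b ^ 2 * (1 - α ^ 2))) := by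
    rw [mul_pow, hr2, hA]
    ring
  refine ⟨?_, ?_, ?_⟩
  · rw [hb]
    exact div_pos h1 hA0
  · rw [hb, div_le_one hA0]
    have : 0 ≤ κ * r := by positivity
    linarith
  · have h3 : A * ((1 - b) ^ 2 - κ ^ 2 * (1 - b ^ 2 * (1 - α ^ 2))) = 0 := by
      rw [← key, h2]
      ring
    exact (mul_eq_zero.1 h3).resolve_left hA0.ne'

private theorem bar_anti {θ : ℝ} (hθ0 : 0 < θ) (hθ1 : θ < 1) : StrictAntiOn (barrier θ) (Set.Icc 0 1) := by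
  intro α hα α' hα' h
  obtain ⟨h1, h2, h3⟩ := bar_zero hθ0 hθ1 hα'.1 hα'.2
  refine lt_bar hθ1 hα.1 hα.2 h2 ?_
  have h4 : α ^ 2 < α' ^ 2 := pow_lt_pow_left₀ h hα.1 two_ne_zero
  have h5 : 0 < (1 - θ) ^ 2 * barrier θ α' ^ 2 * (α' ^ 2 - α ^ 2) := by
    have : 0 < 1 - θ := by linarith
    have : 0 < α' ^ 2 - α ^ 2 := by linarith
    positivity
  have h6 : (1 - barrier θ α') ^ 2 - (1 - θ) ^ 2 * (1 - barrier θ α' ^ 2 * (1 - α ^ 2)) =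
      ((1 - barrier θ α') ^ 2 - (1 - θ) ^ 2 * (1 - barrier θ α' ^ 2 * (1 - α' ^ 2))) +
        (1 - θ) ^ 2 * barrier θ α' ^ 2 * (α' ^ 2 - α ^ 2) := by ring
  rw [h6, h3, zero_add]
  exact h5

private theorem bar_one {θ : ℝ} : barrier θ 1 = θ := by
  unfold barrier
  norm_num

private theorem we_lt {θ : ℝ} (hθ1 : θ < 1) (w α : Set.Ioo (0 : ℝ) 1) (h : (w : ℝ) < barrier θ α) :
    FDr.HC.weR w α < θ := by
  have h1 := bar_lt hθ1 α.2.1.le α.2.2.le h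
  obtain ⟨h2, -, -⟩ := FDr.HC.sq_bd w α
  have h3 : 0 < √(1 - (w : ℝ) ^ 2 * (1 - (α : ℝ) ^ 2)) := Real.sqrt_pos.2 h2
  have h4 : √(1 - (w : ℝ) ^ 2 * (1 - (α : ℝ) ^ 2)) ^ 2 = 1 - (w : ℝ) ^ 2 * (1 - (α : ℝ) ^ 2) := Real.sq_sqrt h2.le
  have h5 : 0 < 1 - θ := by linarith
  have h6 : (1 - θ) * √(1 - (w : ℝ) ^ 2 * (1 - (α : ℝ) ^ 2)) < 1 - w := by
    refine lt_of_pow_lt_pow_left₀ 2 (by linarith [w.2.2]) ?_
    rw [mul_pow, h4]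
    linarith
  have h7 : 1 - θ < (1 - w) / √(1 - (w : ℝ) ^ 2 * (1 - (α : ℝ) ^ 2)) := (lt_div_iff₀ h3).2 h6
  unfold FDr.HC.weR
  linarith

/-! ### The frog model -/

private theorem wCrit_bd {d : ℕ} (hd : 3 ≤ d) : 0 < wCrit (d - 1) ∧ wCrit (d - 1) ≤ 1 / 2 := by
  obtain ⟨D, rfl⟩ : ∃ D, d = (D + 2) + 1 := ⟨d - 3, by omega⟩
  rw [Nat.add_sub_cancel, FDr.HC.wCrit_eq (D + 2)]
  exact ⟨FDr.HC.wc_pos D, FDr.HC.wc_le_half (D + 2)⟩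

private theorem is_prob : ∀ d : ℕ, 3 ≤ d → ∀ w α : Set.Ioo (0 : ℝ) 1, IsProbabilityMeasure (frogLaw d w α) := by
  intro d hd w α
  obtain ⟨D, rfl⟩ : ∃ D, d = D + 1 := ⟨d - 1, by omega⟩
  exact frogLaw_prob D (by omega) w α

private theorem strong_inf : ∀ d : ℕ, 3 ≤ d → ∀ w α : Set.Ioo (0 : ℝ) 1, (w : ℝ) < barrier (wCrit (d - 1)) α →
    ∀ᵐ ω ∂(frogLaw d w α), {t | originVisited ω t}.Infinite := by
  intro d hd w α h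
  have h1 := we_lt (by linarith [(wCrit_bd hd).2]) w α h
  obtain ⟨D, rfl⟩ : ∃ D, d = D + 1 := ⟨d - 1, by omega⟩
  have : NeZero D := ⟨by omega⟩
  rw [Nat.add_sub_cancel, FDr.HC.wCrit_eq D] at h1
  exact prob_infinite D w α (FDr.HC.recur_of_surv w α D (FDr.HC.ksv_pos D (w := FDr.HC.we w α) h1) _ _
    (isFrog D (by omega) w α))

private theorem strong_fin : ∀ d : ℕ, 3 ≤ d → ∀ ε : ℝ, 0 < ε → ∃ a : ℝ, a < 1 ∧ ∀ w α : Set.Ioo (0 : ℝ) 1,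
    a < (α : ℝ) → wCrit (d - 1) + ε ≤ (w : ℝ) → ∀ᵐ ω ∂(frogLaw d w α), {t | originVisited ω t}.Finite := by
  intro d hd ε hε
  obtain ⟨D, rfl⟩ : ∃ D, d = D + 1 := ⟨d - 1, by omega⟩
  have : NeZero D := ⟨by omega⟩
  obtain ⟨a, -, ha, h⟩ := FDr.HC.wc_transient D hε
  refine ⟨a, ha, fun w α h1 h2 => ?_⟩
  rw [Nat.add_sub_cancel, FDr.HC.wCrit_eq D] at h2
  exact prob_finite D w α (h w α h1 h2 _ _ (isFrog D (by omega) w α))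

/-- transience excludes `w < f α` -/
private theorem le_of_fin {d : ℕ} (hd : 3 ≤ d) {f : ℝ → ℝ} (hf : CritCurve d f) (w α : Set.Ioo (0 : ℝ) 1)
    (h : ∀ᵐ ω ∂(frogLaw d w α), {t | originVisited ω t}.Finite) : f α ≤ w := by
  by_contra hn
  rw [not_le] at hn
  have h4 := (hf w α).1 hn
  have := is_prob d hd w α
  obtain ⟨ω, h5, h6⟩ := (h.and h4).exists
  exact h6 h5

/-- recurrence excludes `f α < w` -/
private theorem ge_of_inf {d : ℕ} {f : ℝ → ℝ} (hf : CritCurve d f) (w α : Set.Ioo (0 : ℝ) 1)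
    (h : ∀ᵐ ω ∂(frogLaw d w α), {t | originVisited ω t}.Infinite) : (w : ℝ) ≤ f α := by
  by_contra hn
  rw [not_le] at hn
  exact (hf w α).2 hn h

private theorem curve_ge {d : ℕ} (hd : 3 ≤ d) {f : ℝ → ℝ} (hf : CritCurve d f)
    (h01 : ∀ α : Set.Ioo (0 : ℝ) 1, 0 ≤ f α ∧ f α ≤ 1) (α : Set.Ioo (0 : ℝ) 1) : barrier (wCrit (d - 1)) α ≤ f α := by
  by_contra hn
  rw [not_le] at hn
  obtain ⟨w, h1, h2⟩ := exists_between hn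
  obtain ⟨h3, h4⟩ := wCrit_bd hd
  obtain ⟨-, h5, -⟩ := bar_zero h3 (by linarith) α.2.1.le α.2.2.le
  have hw : w ∈ Set.Ioo (0 : ℝ) 1 := ⟨(h01 α).1.trans_lt h1, h2.trans_le h5⟩
  exact (not_le.2 h1) (ge_of_inf hf ⟨w, hw⟩ α (strong_inf d hd ⟨w, hw⟩ α h2))

private theorem curve_lim {d : ℕ} (hd : 3 ≤ d) {f : ℝ → ℝ} (hf : CritCurve d f)
    (h01 : ∀ α : Set.Ioo (0 : ℝ) 1, 0 ≤ f α ∧ f α ≤ 1) : Tendsto f (𝓝[<] 1) (𝓝 (wCrit (d - 1))) := by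
  obtain ⟨hc0, hc1⟩ := wCrit_bd hd
  rw [tendsto_order]
  refine ⟨fun b hb => ?_, fun b hb => ?_⟩
  · have e2 : ∀ᶠ α : ℝ in 𝓝[<] 1, α ∈ Set.Ioo (0 : ℝ) 1 := Ioo_mem_nhdsLT one_pos
    filter_upwards [e2] with α hα
    have h1 := bar_anti hc0 (by linarith) ⟨hα.1.le, hα.2.le⟩ ⟨zero_le_one, le_rfl⟩ hα.2
    rw [bar_one] at h1
    exact hb.trans (h1.trans_le (curve_ge hd hf h01 ⟨α, hα⟩))
  · by_cases hb1 : b ≤ 1
    · obtain ⟨c, hc2, hc3⟩ := exists_between hb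
      obtain ⟨a, ha, h⟩ := strong_fin d hd (c - wCrit (d - 1)) (by linarith)
      have e2 : ∀ᶠ α : ℝ in 𝓝[<] 1, α ∈ Set.Ioo (max a 0) 1 := Ioo_mem_nhdsLT (max_lt ha one_pos)
      filter_upwards [e2] with α h2
      have hα : α ∈ Set.Ioo (0 : ℝ) 1 := ⟨(le_max_right a 0).trans_lt h2.1, h2.2⟩
      have hc : c ∈ Set.Ioo (0 : ℝ) 1 := ⟨hc0.trans hc2, hc3.trans_le hb1⟩
      refine lt_of_le_of_lt ?_ hc3
      exact le_of_fin hd hf ⟨c, hc⟩ ⟨α, hα⟩ (h ⟨c, hc⟩ ⟨α, hα⟩ ((le_max_left a 0).trans_lt h2.1) (by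
        show wCrit (d - 1) + (c - wCrit (d - 1)) ≤ c
        linarith))
    · have e2 : ∀ᶠ α : ℝ in 𝓝[<] 1, α ∈ Set.Ioo (0 : ℝ) 1 := Ioo_mem_nhdsLT one_pos
      filter_upwards [e2] with α hα
      exact (h01 ⟨α, hα⟩).2.trans_lt (not_le.1 hb1)

/-- **The lower barrier and the limit of strong drift, in every dimension `d ≥ 3`.** -/
theorem result : ∀ d : ℕ, 3 ≤ d →
    (∀ w α : Set.Ioo (0 : ℝ) 1, IsProbabilityMeasure (frogLaw d w α)) ∧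
    -- the barrier
    (0 < wCrit (d - 1) ∧ wCrit (d - 1) ≤ 1 / 2 ∧ StrictAntiOn (barrier (wCrit (d - 1))) (Set.Icc 0 1) ∧
      barrier (wCrit (d - 1)) 1 = wCrit (d - 1)) ∧
    (∀ w α : Set.Ioo (0 : ℝ) 1, (w : ℝ) < barrier (wCrit (d - 1)) α →
      ∀ᵐ ω ∂(frogLaw d w α), {t | originVisited ω t}.Infinite) ∧
    -- strong drift
    (∀ ε : ℝ, 0 < ε → ∃ a : ℝ, a < 1 ∧ ∀ w α : Set.Ioo (0 : ℝ) 1, a < (α : ℝ) → wCrit (d - 1) + ε ≤ (w : ℝ) →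
      ∀ᵐ ω ∂(frogLaw d w α), {t | originVisited ω t}.Finite) ∧
    -- the critical curves
    (∀ f : ℝ → ℝ, CritCurve d f → (∀ α : Set.Ioo (0 : ℝ) 1, 0 ≤ f α ∧ f α ≤ 1) →
      (∀ α : Set.Ioo (0 : ℝ) 1, barrier (wCrit (d - 1)) α ≤ f α) ∧ Tendsto f (𝓝[<] 1) (𝓝 (wCrit (d - 1)))) := by
  intro d hd
  obtain ⟨h0, h1⟩ := wCrit_bd hd
  exact ⟨is_prob d hd, ⟨h0, h1, bar_anti h0 (by linarith), bar_one⟩, strong_inf d hd, strong_fin d hd,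
    fun f hf h01 => ⟨fun α => curve_ge hd hf h01 α, curve_lim hd hf h01⟩⟩

end Pool.Agent.Results.MP_e029a2_pr.StrongDriftLimit
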